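import Pool.Agent.H90.STK.Stmts

/-!
# Conservation of differences, second inequality
-/

set_option autoImplicit false

namespace Pool.STK

open Finset Real MeasureTheory
open Pool.Agent.H49.Ent Pool.Agent.H32.Dense

namespace CN2

/-- Vectors which vary by at most `6` given `W`. -/
lemma CH_le_cc {Ω T : Type} [Fintype Ω] {m : ℕ} {p : Ω → ℝ} (hp : IsLaw p)
    (X : Ω → Fin m → ℤ) (W : Ω → T)
    (hX : ∀ ω ω', 0 < p ω → 0 < p ω' → W ω = W ω' → ∀ k, |((X ω k - X ω' k : ℤ) : ℝ)| ≤ 6) :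
    CH p X W ≤ cc m := by
  have h := CH_le_vec hp.nonneg hp.sum_one X W (fun _ => 6) hX
  rw [Ex_const hp.sum_one] at h
  refine h.trans ?_
  unfold cc
  refine mul_le_mul_of_nonneg_left ?_ (Nat.cast_nonneg m)
  exact Real.log_le_log (by norm_num) (by norm_num)

lemma isLaw_dbl {Ω β : Type} [Fintype Ω] {p : Ω → ℝ} (b : Ω → β) (hp : IsLaw p) :
    IsLaw (dbl p b) where
  nonneg := dbl_nonneg hp.nonneg
  sum_one := by rw [(dbl_fst (b := b) hp.nonneg).sum, hp.sum_one]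

/-- Equal floors. -/
lemma abs_lt_of_fl {m : ℕ} {j : ℕ} {x y : Fin m → ℝ} (h : fl j x = fl j y) (i : Fin m) :
    |2 ^ j * (y i - x i)| < 1 := by
  have h1 : ⌊(2 : ℝ) ^ j * x i⌋ = ⌊(2 : ℝ) ^ j * y i⌋ := congrFun h i
  have h2 := Int.abs_sub_lt_one_of_floor_eq_floor h1
  rw [abs_sub_comm] at h2
  have h3 : (2 : ℝ) ^ j * (y i - x i) = 2 ^ j * y i - 2 ^ j * x i := by ring
  rw [h3]
  exact h2

/-- Differences are conserved. -/
lemma zz_near {Ω ζ : Type} [Fintype Ω] {m : ℕ} {p : Ω → ℝ} {u d : Ω → Fin m → ℝ} {Z : Ω → ζ}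
    (hp : IsLaw p) {k r : ℕ} {t₀ t : ℝ} (ht : InW k t₀ t) {w : Ω × Ω}
    (hw : 0 < dbl p (bb u d Z k r) w) (i : Fin m) :
    |((Xp u d t ((r + 1) * k) w.2 i - Xp u d t ((r + 1) * k) w.1 i -
      zz u d t₀ ((r + 1) * k) w i : ℤ) : ℝ)| ≤ 3 := by
  obtain ⟨-, h1, h2, -⟩ := ht
  have hb : bb u d Z k r w.1 = bb u d Z k r w.2 := dbl_eq hp.nonneg hw
  have hd : fl (r * k) (d w.1) = fl (r * k) (d w.2) := by
    unfold bb Ln Fl at hb
    simp only [Prod.mk.injEq] at hb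
    exact hb.1.2
  have h3 := abs_lt_of_fl hd i
  rw [abs_lt] at h3
  have hpow : (2 : ℝ) ^ ((r + 1) * k) = 2 ^ (r * k) * 2 ^ k := by
    rw [add_mul, one_mul, pow_add]
  have hk : (0 : ℝ) < 2 ^ k := by positivity
  have h4 : 0 ≤ 2 ^ k * (t - t₀) := mul_nonneg hk.le (by linarith)
  have h5 : 2 ^ k * (t - t₀) ≤ 1 := by
    have : t - t₀ ≤ (2 ^ k)⁻¹ := by linarith
    calc 2 ^ k * (t - t₀) ≤ 2 ^ k * (2 ^ k)⁻¹ := mul_le_mul_of_nonneg_left this hk.le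
      _ = 1 := mul_inv_cancel₀ hk.ne'
  have h6 : |2 ^ k * (t - t₀) * (2 ^ (r * k) * (d w.2 i - d w.1 i))| ≤ 1 := by
    rw [abs_mul, abs_of_nonneg h4]
    have := (abs_lt.mpr h3).le
    calc 2 ^ k * (t - t₀) * |2 ^ (r * k) * (d w.2 i - d w.1 i)| ≤ 1 * 1 :=
          mul_le_mul h5 this (abs_nonneg _) (by norm_num)
      _ = 1 := by norm_num
  rw [abs_le] at h6
  have e1 : Xp u d t ((r + 1) * k) w.2 i = ⌊(2 : ℝ) ^ ((r + 1) * k) * (u w.2 i + t * d w.2 i)⌋ := rfl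
  have e2 : Xp u d t ((r + 1) * k) w.1 i = ⌊(2 : ℝ) ^ ((r + 1) * k) * (u w.1 i + t * d w.1 i)⌋ := rfl
  have e3 : zz u d t₀ ((r + 1) * k) w i = ⌊(2 : ℝ) ^ ((r + 1) * k) *
    ((u w.2 i + t₀ * d w.2 i) - (u w.1 i + t₀ * d w.1 i))⌋ := rfl
  rw [e1, e2, e3]
  set a := (2 : ℝ) ^ ((r + 1) * k) * (u w.2 i + t * d w.2 i) with ha
  set b := (2 : ℝ) ^ ((r + 1) * k) * (u w.1 i + t * d w.1 i) with hb
  set c := (2 : ℝ) ^ ((r + 1) * k) *
    ((u w.2 i + t₀ * d w.2 i) - (u w.1 i + t₀ * d w.1 i)) with hc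
  have h7 : a - b - c = 2 ^ k * (t - t₀) * (2 ^ (r * k) * (d w.2 i - d w.1 i)) := by
    rw [ha, hb, hc, hpow]
    ring
  rw [← h7] at h6
  have fa := Int.floor_le a
  have fa' := Int.lt_floor_add_one a
  have fb := Int.floor_le b
  have fb' := Int.lt_floor_add_one b
  have fc := Int.floor_le c
  have fc' := Int.lt_floor_add_one c
  push_cast
  rw [abs_le]
  constructor <;> linarith [h6.1, h6.2]

end CN2

/-- Conservation of differences, second inequality. -/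
theorem cn2_thm : CN2Stmt := by
  intro m Ω ζ _ p u d Z hp k r t₀ t ht
  have hq := CN2.isLaw_dbl (bb u d Z k r) hp
  have e1 : CH p (Xp u d t ((r + 1) * k)) (bb u d Z k r) =
      CH (dbl p (bb u d Z k r)) (fun w => Xp u d t ((r + 1) * k) w.2) (fun w => w.1) := by
    rw [← CH_dbl_2 hp.nonneg (Xp u d t ((r + 1) * k)) (fun ω => ω)]
    refine CH_congr hq.nonneg ?_ ?_ ?_ ?_
    · intro w w' _ _ h
      exact (Prod.ext_iff.mp h).1
    · intro w w' _ _ h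
      exact (Prod.ext_iff.mp h).1
    · intro w w' _ _ h
      exact (Prod.ext_iff.mp h).2
    · intro w w' a b h
      refine Prod.ext ?_ h
      have h' : w.1 = w'.1 := h
      show bb u d Z k r w.2 = bb u d Z k r w'.2
      rw [← dbl_eq hp.nonneg a, ← dbl_eq hp.nonneg b, h']
  rw [e1]
  refine (CH_le_add hq.nonneg _ (zz u d t₀ ((r + 1) * k)) _).trans ?_
  refine add_le_add le_rfl (CN2.CH_le_cc hq _ _ ?_)
  intro w w' a b h i
  simp only [Prod.mk.injEq] at h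
  have h1 := CN2.zz_near hp ht a i
  have h2 := CN2.zz_near hp ht b i
  rw [h.1, h.2] at h1
  rw [abs_le] at h1 h2 ⊢
  push_cast at h1 h2 ⊢
  constructor <;> linarith [h1.1, h1.2, h2.1, h2.2]

end Pool.STK
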