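import Pool.Agent.H44.STK.CN2

/-!
# Conservation of differences, fourth inequality
-/

set_option autoImplicit false

namespace Pool.STK

open Finset Real MeasureTheory
open Pool.Agent.H49.Ent Pool.Agent.H32.Dense

/-- Conservation of differences, fourth inequality. -/
theorem cn4_thm : CN4Stmt := by
  intro m Ω ζ _ p u d Z hp k r t₀ t ht
  have hq := CN2.isLaw_dbl (bb u d Z k r) hp
  refine (CH_le_add hq.nonneg _ (zz u d t₀ ((r + 1) * k)) _).trans ?_
  refine add_le_add le_rfl (CN2.CH_le_cc hq _ _ ?_)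
  intro w w' a b h i
  simp only [Prod.mk.injEq] at h
  have h1 := CN2.zz_near hp ht a i
  have h2 := CN2.zz_near hp ht b i
  rw [h.1] at h1
  simp only [Pi.sub_apply]
  rw [abs_le] at h1 h2 ⊢
  push_cast at h1 h2 ⊢
  constructor <;> linarith [h1.1, h1.2, h2.1, h2.2]

end Pool.STK
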